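import Mathlib

/-!
# The order polytope of the face lattice of a 13-gon is not Ehrhart-nonnegative
-/

namespace Pool.Agent.Results.MP_a14af5_co.PolygonThirteen

open Finset Pointwise

/-- The faces of a convex polygon with vertices labelled cyclically by `ZMod n`. -/
inductive PolygonFace (n : ℕ)
  | empty : PolygonFace n
  | vertex (i : ZMod n) : PolygonFace n
  | edge (i : ZMod n) : PolygonFace n
  | whole : PolygonFace n

/-- The vertex set of a face; `edge i` joins the vertices `i` and `i + 1`. -/
def PolygonFace.verts {n : ℕ} : PolygonFace n → Set (ZMod n)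
  | .empty => ∅
  | .vertex i => {i}
  | .edge i => {i, i + 1}
  | .whole => Set.univ

/-- Faces are ordered by inclusion. -/
instance (n : ℕ) : LE (PolygonFace n) := ⟨fun a b => a.verts ⊆ b.verts⟩

/-- The order polytope of a poset. -/
def orderPolytope (α : Type) [LE α] : Set (α → ℝ) :=
  {x | (∀ a, 0 ≤ x a ∧ x a ≤ 1) ∧ ∀ a b, a ≤ b → x a ≤ x b}

/-- `IsEhrhart P p`: for every natural number `t`, the value `p(t)` is the number of integer
points of `t P`. -/
def IsEhrhart {α : Type} (P : Set (α → ℝ)) (p : Polynomial ℚ) : Prop :=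
  ∀ t : ℕ, (({z : α → ℤ | (fun a => (z a : ℝ)) ∈ (t : ℝ) • P}.ncard : ℕ) : ℚ) = p.eval (t : ℚ)

/-! ### Polynomiality -/

section poly

open Classical in
/-- number of maps to `Fin m` respecting `R` -/
noncomputable def cnt (α : Type) [Fintype α] (R : α → α → Prop) (m : ℕ) : ℕ :=
  (univ.filter (fun f : α → Fin m => ∀ a b, R a b → f a ≤ f b)).card

open Classical in
/-- number of surjective maps to `Fin m` respecting `R` -/
noncomputable def scnt (α : Type) [Fintype α] (R : α → α → Prop) (m : ℕ) : ℕ :=
  (univ.filter (fun f : α → Fin m => (∀ a b, R a b → f a ≤ f b) ∧ Function.Surjective f)).card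

open Classical in
lemma fiber_eq (α : Type) [Fintype α] (R : α → α → Prop) (m : ℕ) (S : Finset (Fin m)) :
    (univ.filter (fun f : α → Fin m => (∀ a b, R a b → f a ≤ f b) ∧ univ.image f = S)).card
      = scnt α R S.card := by
  unfold scnt
  symm
  let e := S.orderEmbOfFin (rfl : S.card = S.card)
  refine Finset.card_bij (fun g _ => fun a => e (g a)) ?_ ?_ ?_
  · intro g hg
    simp only [mem_filter, mem_univ, true_and] at hg ⊢
    refine ⟨fun a b h => e.le_iff_le.2 (hg.1 a b h), ?_⟩
    ext x
    simp only [mem_image, mem_univ, true_and]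
    constructor
    · rintro ⟨a, rfl⟩
      exact S.orderEmbOfFin_mem rfl (g a)
    · intro hx
      have : x ∈ Set.range e := by
        rw [S.range_orderEmbOfFin rfl]; exact hx
      obtain ⟨k, hk⟩ := this
      obtain ⟨a, ha⟩ := hg.2 k
      exact ⟨a, by rw [ha, hk]⟩
  · intro g _ g' _ h
    funext a
    exact e.injective (congrFun h a)
  · intro f hf
    simp only [mem_filter, mem_univ, true_and] at hf
    have hr : ∀ a, f a ∈ Set.range e := by
      intro a
      rw [S.range_orderEmbOfFin rfl]
      rw [← hf.2]
      simp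
    choose g hg using hr
    refine ⟨g, ?_, ?_⟩
    · simp only [mem_filter, mem_univ, true_and]
      refine ⟨fun a b h => ?_, ?_⟩
      · rw [← e.le_iff_le, hg, hg]
        exact hf.1 a b h
      · intro k
        have : e k ∈ univ.image f := by
          rw [hf.2]; exact S.orderEmbOfFin_mem rfl k
        simp only [mem_image, mem_univ, true_and] at this
        obtain ⟨a, ha⟩ := this
        exact ⟨a, e.injective (by rw [hg, ha])⟩
    · funext a
      exact hg a

lemma scnt_zero (α : Type) [Fintype α] (R : α → α → Prop) (m : ℕ) (h : Fintype.card α < m) :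
    scnt α R m = 0 := by
  classical
  unfold scnt
  rw [Finset.card_eq_zero, Finset.filter_eq_empty_iff]
  intro f _ hf
  have := Fintype.card_le_of_surjective f hf.2
  rw [Fintype.card_fin] at this
  omega

lemma cnt_eq (α : Type) [Fintype α] (R : α → α → Prop) (m : ℕ) :
    cnt α R m = ∑ k ∈ range (Fintype.card α + 1), m.choose k * scnt α R k := by
  classical
  have h1 : cnt α R m = ∑ S ∈ (univ : Finset (Fin m)).powerset, scnt α R S.card := by
    unfold cnt
    rw [Finset.card_eq_sum_card_fiberwise (f := fun f : α → Fin m => univ.image f)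
      (t := (univ : Finset (Fin m)).powerset)]
    · refine Finset.sum_congr rfl ?_
      intro S _
      rw [← fiber_eq α R m S, Finset.filter_filter]
    · intro f _
      simp
  rw [h1, Finset.sum_powerset_apply_card (fun k => scnt α R k), Finset.card_univ,
    Fintype.card_fin]
  simp only [smul_eq_mul]
  rcases le_total m (Fintype.card α) with h | h
  · refine Finset.sum_subset ?_ ?_
    · intro k; simp only [mem_range]; omega
    · intro k _ hk
      simp only [mem_range, not_lt] at hk
      rw [Nat.choose_eq_zero_of_lt (by omega), zero_mul]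
  · symm
    refine Finset.sum_subset ?_ ?_
    · intro k; simp only [mem_range]; omega
    · intro k _ hk
      simp only [mem_range, not_lt] at hk
      rw [scnt_zero α R k (by omega), mul_zero]

/-- binomial polynomial `C(X,k)` -/
noncomputable def binom (k : ℕ) : Polynomial ℚ :=
  Polynomial.C ((k.factorial : ℚ)⁻¹) * descPochhammer ℚ k

lemma binom_eval (k m : ℕ) : (binom k).eval (m : ℚ) = (m.choose k : ℕ) := by
  unfold binom
  rw [Polynomial.eval_mul, Polynomial.eval_C, descPochhammer_eval_eq_descFactorial,
    Nat.descFactorial_eq_factorial_mul_choose]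
  push_cast
  have : (k.factorial : ℚ) ≠ 0 := by exact_mod_cast k.factorial_ne_zero
  field_simp

lemma binom_natDegree (k : ℕ) : (binom k).natDegree ≤ k := by
  unfold binom
  refine (Polynomial.natDegree_C_mul_le _ _).trans ?_
  rw [descPochhammer_natDegree]

lemma cnt_poly (α : Type) [Fintype α] (R : α → α → Prop) :
    ∃ p : Polynomial ℚ, p.natDegree ≤ Fintype.card α ∧
      ∀ t : ℕ, (cnt α R (t + 1) : ℚ) = p.eval (t : ℚ) := by
  refine ⟨∑ k ∈ range (Fintype.card α + 1), Polynomial.C (scnt α R k : ℚ) *
    (binom k).comp (Polynomial.X + Polynomial.C 1), ?_, ?_⟩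
  · refine Polynomial.natDegree_sum_le_of_forall_le _ _ ?_
    intro k hk
    refine (Polynomial.natDegree_C_mul_le _ _).trans ?_
    refine Polynomial.natDegree_comp_le.trans ?_
    have h1 := binom_natDegree k
    have h2 : (Polynomial.X + Polynomial.C (1 : ℚ)).natDegree = 1 := Polynomial.natDegree_X_add_C 1
    rw [h2, mul_one]
    simp only [mem_range] at hk
    omega
  · intro t
    rw [cnt_eq, Polynomial.eval_finsetSum]
    push_cast
    refine Finset.sum_congr rfl ?_
    intro k _
    rw [Polynomial.eval_mul, Polynomial.eval_C, Polynomial.eval_comp, Polynomial.eval_add,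
      Polynomial.eval_X, Polynomial.eval_C]
    have := binom_eval k (t + 1)
    push_cast at this
    rw [this]
    ring

end poly

/-! ### The linear coefficient from the values -/

/-- integer weights for the finite difference formula of the linear coefficient -/
def wts : List ℤ := [-315404588903, 2248776129600, -15179238874800, 87702269054400, -411104386192500, 1578640842979200, -5042880470628000, 13584902492304000, -31202822912010750, 61635205752120000, -105396201836125200, 156787738268616000, -203606299001605500, 231316032001824000, -230135848165080000, 200473894401580800, -152704724251204125, 101450889467928000, -58553445464514000, 29195623777320000, -12481129164804300, 4528300830768000, -1375331037444000, 343182791952000, -68517397698750, 10524272286528, -1167633759600, 83288004800, -2868336900]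

lemma wts_check : ∀ i < 29, ∑ t ∈ range 29, wts.getD t 0 * (t : ℤ) ^ i =
    if i = 1 then 80313433200 else 0 := by
  decide +kernel

lemma coeff_one_formula (p : Polynomial ℚ) (hp : p.natDegree ≤ 28) :
    80313433200 * p.coeff 1 = ∑ t ∈ range 29, (wts.getD t 0 : ℚ) * p.eval (t : ℚ) := by
  have h1 : ∀ t : ℕ, p.eval (t : ℚ) = ∑ i ∈ range 29, p.coeff i * (t : ℚ) ^ i := by
    intro t
    exact Polynomial.eval_eq_sum_range' (by omega) _
  simp only [h1, Finset.mul_sum]
  rw [Finset.sum_comm]
  have h2 : ∀ i ∈ range 29, ∑ t ∈ range 29, (wts.getD t 0 : ℚ) * (p.coeff i * (t : ℚ) ^ i) =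
      if i = 1 then 80313433200 * p.coeff 1 else 0 := by
    intro i hi
    have h3 := wts_check i (by simpa using hi)
    have h4 : ∑ t ∈ range 29, (wts.getD t 0 : ℚ) * (t : ℚ) ^ i =
        if i = 1 then 80313433200 else 0 := by
      have := congrArg (fun z : ℤ => (z : ℚ)) h3
      push_cast at this
      rw [this]
    have h5 : ∑ t ∈ range 29, (wts.getD t 0 : ℚ) * (p.coeff i * (t : ℚ) ^ i) =
        p.coeff i * ∑ t ∈ range 29, (wts.getD t 0 : ℚ) * (t : ℚ) ^ i := by
      rw [Finset.mul_sum]
      refine Finset.sum_congr rfl ?_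
      intro t _
      ring
    rw [h5, h4]
    split_ifs with h
    · subst h; ring
    · ring
  rw [Finset.sum_congr rfl h2]
  rw [Finset.sum_ite_eq' (range 29) 1 (fun _ => 80313433200 * p.coeff 1)]
  simp

/-! ### List computation -/

/-- prefix sums -/
def pre : ℕ → List ℕ → List ℕ
  | _, [] => []
  | acc, y :: ys => (acc + y) :: pre (acc + y) ys

/-- suffix sums -/
def suf : List ℕ → List ℕ
  | [] => []
  | y :: ys => (y + (suf ys).headD 0) :: suf ys

/-- iterate -/
def iter : ℕ → List ℕ → List ℕ
  | 0, l => l
  | n + 1, l => iter n (suf (pre 0 l))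

/-- unit vector -/
def unitL (s a : ℕ) : List ℕ := (List.range s).map (fun i => if i = a then 1 else 0)

/-- number of closed walks -/
def FL (s : ℕ) : ℕ := ((List.range s).map (fun a => (iter 13 (unitL s a)).getD a 0)).sum

def tableF : List ℕ := [0, 1, 271443, 1385407029, 874569107071, 154424192534978, 11590981980134136, 471109005712845073, 12073893516637797647, 216054227528911051598, 2899588931289770319928, 30747252105854418602807, 267900870986039891665533, 1976658261038065237688965, 12646583259151935165028659, 71505544338055517905383002, 362852466483982941465664294, 1673644967862052696066138463, 7091534775916075003484209649, 27850704697432295249191815709, 102151810477267331847970867095, 352204279293140920190902505756, 1147947037059968833062938517298, 3554264799119307289506871036659, 10498698066409011044245276217901, 29697044023575712453995735900724, 80710316446302004065351530568318, 211382155607852560741336416052863, 534907644994676627454203692327477, 1310960487246736777485104974336647]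

lemma table_check : ∀ s < 30, FL s = tableF.getD s 0 := by
  decide +kernel

/-! ### Lists and matrices -/

lemma pre_length (l : List ℕ) : ∀ acc, (pre acc l).length = l.length := by
  induction l with
  | nil => intro acc; rfl
  | cons y ys ih => intro acc; simp [pre, ih]

lemma suf_length (l : List ℕ) : (suf l).length = l.length := by
  induction l with
  | nil => rfl
  | cons y ys ih => simp [suf, ih]

lemma pre_getD (l : List ℕ) : ∀ acc i, i < l.length →
    (pre acc l).getD i 0 = acc + ∑ j ∈ range (i + 1), l.getD j 0 := by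
  induction l with
  | nil => intro acc i h; simp at h
  | cons y ys ih =>
    intro acc i h
    cases i with
    | zero => simp [pre]
    | succ i =>
      simp only [pre, List.getD_cons_succ]
      rw [ih (acc + y) i (by simpa using h), Finset.sum_range_succ' _ (i + 1)]
      simp only [List.getD_cons_succ, List.getD_cons_zero]
      ring

lemma suf_getD (l : List ℕ) : ∀ i, (suf l).getD i 0 = ∑ j ∈ range l.length, if i ≤ j then l.getD j 0 else 0 := by
  induction l with
  | nil => intro i; simp [suf]
  | cons y ys ih =>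
    intro i
    rw [List.length_cons, Finset.sum_range_succ']
    cases i with
    | zero =>
      simp only [suf, List.getD_cons_zero, List.getD_cons_succ]
      have h0 : (suf ys).headD 0 = (suf ys).getD 0 0 := by
        cases suf ys <;> rfl
      rw [h0, ih 0]
      simp [add_comm]
    | succ i =>
      simp only [suf, List.getD_cons_succ]
      rw [ih i]
      simp

/-- the kernel `K(a,b)`: number of `e < s` above both -/
def Kf (s a b : ℕ) : ℕ := ∑ e ∈ range s, if a ≤ e ∧ b ≤ e then 1 else 0

/-- operator on functions -/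
def Kop (s : ℕ) (x : ℕ → ℕ) (a : ℕ) : ℕ := ∑ b ∈ range s, Kf s a b * x b

lemma step_getD (s : ℕ) (l : List ℕ) (hl : l.length = s) (i : ℕ) :
    (suf (pre 0 l)).getD i 0 = Kop s (fun j => l.getD j 0) i := by
  rw [suf_getD, pre_length, hl]
  unfold Kop Kf
  simp only [Finset.sum_mul]
  rw [Finset.sum_comm]
  refine Finset.sum_congr rfl ?_
  intro e he
  have he' : e < s := by simpa using he
  split_ifs with h
  · rw [pre_getD l 0 e (by omega), zero_add]
    have h1 : ∑ y ∈ range s, (if i ≤ e ∧ y ≤ e then 1 else 0) * l.getD y 0 =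
        ∑ y ∈ range s, if y ∈ range (e + 1) then l.getD y 0 else 0 := by
      refine Finset.sum_congr rfl ?_
      intro y _
      by_cases hy : y ≤ e
      · simp [h, hy]
      · simp [hy]
    rw [h1, Finset.sum_ite_mem]
    refine Finset.sum_congr ?_ (fun _ _ => rfl)
    ext y
    simp only [mem_range, mem_inter]
    omega
  · symm
    apply Finset.sum_eq_zero
    intro y _
    simp [h]

lemma iter_getD (s n : ℕ) : ∀ (l : List ℕ), l.length = s → ∀ i,
    (iter n l).getD i 0 = (Kop s)^[n] (fun j => l.getD j 0) i := by
  induction n with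
  | zero => intro l _ i; rfl
  | succ n ih =>
    intro l hl i
    have h1 : (suf (pre 0 l)).length = s := by rw [suf_length, pre_length, hl]
    simp only [iter]
    rw [ih _ h1, Function.iterate_succ_apply]
    have h2 : (fun j => (suf (pre 0 l)).getD j 0) = Kop s (fun j => l.getD j 0) :=
      funext (fun j => step_getD s l hl j)
    rw [h2]

/-- closed walks via `Kop` -/
lemma FL_eq (s : ℕ) : FL s = ∑ a ∈ range s, (Kop s)^[13] (fun j => if j = a then 1 else 0) a := by
  unfold FL
  have h0 : ∀ f : ℕ → ℕ, ((List.range s).map f).sum = ∑ a ∈ range s, f a := by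
    intro f
    rw [← List.sum_toFinset _ (List.nodup_range)]
    congr 1
    ext; simp
  rw [h0]
  refine Finset.sum_congr rfl ?_
  intro a ha
  have hl : (unitL s a).length = s := by simp [unitL]
  rw [iter_getD s 13 _ hl]
  -- compare the two starting vectors: they agree below s
  have key : ∀ n, ∀ x y : ℕ → ℕ, (∀ i < s, x i = y i) → ∀ i < s,
      (Kop s)^[n] x i = (Kop s)^[n] y i := by
    intro n
    induction n with
    | zero => intro x y h i hi; exact h i hi
    | succ n ih =>
      intro x y h i hi
      rw [Function.iterate_succ_apply, Function.iterate_succ_apply]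
      refine ih _ _ ?_ i hi
      intro j _
      unfold Kop
      refine Finset.sum_congr rfl ?_
      intro b hb
      rw [h b (by simpa using hb)]
  refine key 13 _ _ ?_ a (by simpa using ha)
  intro i hi
  unfold unitL
  simp [List.getD_eq_getElem?_getD, List.getElem?_map, List.getElem?_range hi]

/-- the matrix of `Kf` -/
def KM (s : ℕ) : Matrix (Fin s) (Fin s) ℕ := fun a b => Kf s a b

lemma KM_pow (s n : ℕ) : ∀ (a b : Fin s),
    ((KM s) ^ n) a b = (Kop s)^[n] (fun j => if j = (b : ℕ) then 1 else 0) a := by
  induction n with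
  | zero =>
    intro a b
    rw [pow_zero, Matrix.one_apply]
    simp only [Function.iterate_zero, id_eq]
    by_cases h : a = b
    · simp [h]
    · have : (a : ℕ) ≠ b := fun h' => h (Fin.ext h')
      simp [h, this]
  | succ n ih =>
    intro a b
    rw [pow_succ', Matrix.mul_apply, Function.iterate_succ_apply']
    unfold Kop
    rw [Finset.sum_range (fun c => Kf s a c * _)]
    refine Finset.sum_congr rfl ?_
    intro c _
    rw [ih c b]
    rfl

lemma FL_trace (s : ℕ) : FL s = ∑ a : Fin s, ((KM s) ^ 13) a a := by
  rw [FL_eq, Finset.sum_range (fun a => (Kop s)^[13] (fun j => if j = a then 1 else 0) a)]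
  refine Finset.sum_congr rfl ?_
  intro a _
  rw [KM_pow]

lemma walk_sum {β : Type} [Fintype β] [DecidableEq β] (M : Matrix β β ℕ) (n : ℕ) :
    ∀ g : β → β → ℕ, ∑ v : Fin (n + 1) → β, (∏ i : Fin n, M (v i.castSucc) (v i.succ)) *
      g (v 0) (v (Fin.last n)) = ∑ a, ∑ b, (M ^ n) a b * g a b := by
  induction n with
  | zero =>
    intro g
    simp only [Finset.univ_eq_empty, Finset.prod_empty, one_mul, pow_zero, Matrix.one_apply,
      ite_mul, zero_mul, Finset.sum_ite_eq, mem_univ, if_true]
    rw [← (Equiv.funUnique (Fin 1) β).symm.sum_comp]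
    rfl
  | succ n ih =>
    intro g
    rw [← (Fin.consEquiv (fun _ : Fin (n + 1 + 1) => β)).sum_comp, Fintype.sum_prod_type]
    have h1 : ∀ (c : β), ∑ v : Fin (n + 1) → β,
        (∏ i : Fin (n + 1), M ((Fin.consEquiv (fun _ : Fin (n + 1 + 1) => β)) (c, v) i.castSucc)
          ((Fin.consEquiv (fun _ : Fin (n + 1 + 1) => β)) (c, v) i.succ)) *
        g ((Fin.consEquiv (fun _ : Fin (n + 1 + 1) => β)) (c, v) 0)
          ((Fin.consEquiv (fun _ : Fin (n + 1 + 1) => β)) (c, v) (Fin.last (n + 1))) =
        ∑ a, ∑ b, (M ^ n) a b * (M c a * g c b) := by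
      intro c
      rw [← ih (fun a b => M c a * g c b)]
      refine Finset.sum_congr rfl ?_
      intro v _
      rw [Fin.prod_univ_succ]
      have e1 : ∀ i : Fin n, (Fin.consEquiv (fun _ : Fin (n + 1 + 1) => β)) (c, v)
          (i.succ.castSucc) = v i.castSucc := by
        intro i; rfl
      have e2 : ∀ i : Fin (n + 1), (Fin.consEquiv (fun _ : Fin (n + 1 + 1) => β)) (c, v)
          (i.succ) = v i := by
        intro i; rfl
      have e3 : (Fin.consEquiv (fun _ : Fin (n + 1 + 1) => β)) (c, v) 0 = c := rfl
      have e4 : (Fin.consEquiv (fun _ : Fin (n + 1 + 1) => β)) (c, v) (Fin.last (n + 1)) =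
          v (Fin.last n) := rfl
      have e5 : (Fin.consEquiv (fun _ : Fin (n + 1 + 1) => β)) (c, v) (Fin.castSucc 0) = c := rfl
      simp only [e1, e2, e3, e4, e5]
      ring
    rw [Finset.sum_congr rfl (fun c _ => h1 c)]
    refine Finset.sum_congr rfl ?_
    intro c _
    simp only [pow_succ', Matrix.mul_apply, Finset.sum_mul]
    rw [Finset.sum_comm]
    refine Finset.sum_congr rfl ?_
    intro b _
    refine Finset.sum_congr rfl ?_
    intro a _
    ring

lemma closed_walk {β : Type} [Fintype β] [DecidableEq β] (M : Matrix β β ℕ) (n : ℕ) :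
    ∑ v : Fin (n + 1) → β, ∏ i : Fin (n + 1), M (v i) (v (i + 1)) = ∑ a, (M ^ (n + 1)) a a := by
  have h := walk_sum M n (fun a b => M b a)
  have h2 : ∑ a, (M ^ (n + 1)) a a = ∑ a, ∑ b, (M ^ n) a b * M b a := by
    refine Finset.sum_congr rfl ?_
    intro a _
    rw [pow_succ, Matrix.mul_apply]
  rw [h2, ← h]
  refine Finset.sum_congr rfl ?_
  intro v _
  rw [Fin.prod_univ_castSucc]
  congr 1
  · refine Finset.prod_congr rfl ?_
    intro i _
    rw [Fin.coeSucc_eq_succ]
  · rw [Fin.last_add_one]

/-! ### Crown configurations -/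

/-- vertex values and edge values compatible with the crown order -/
def Cr {β : Type} [LE β] (p : (ZMod 13 → β) × (ZMod 13 → β)) : Prop :=
  ∀ i, p.1 i ≤ p.2 i ∧ p.1 (i + 1) ≤ p.2 i

open Classical in
/-- number of configurations -/
noncomputable def crc (β : Type) [Fintype β] [LE β] : ℕ :=
  (univ.filter (fun p : (ZMod 13 → β) × (ZMod 13 → β) => Cr p)).card

lemma crc_iso {β γ : Type} [Fintype β] [Fintype γ] [LE β] [LE γ] (e : β ≃o γ) :
    crc β = crc γ := by
  classical
  unfold crc
  refine Finset.card_bij (fun p _ => (fun i => e (p.1 i), fun i => e (p.2 i))) ?_ ?_ ?_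
  · intro p hp
    simp only [mem_filter, mem_univ, true_and] at hp ⊢
    intro i
    simp only [e.le_iff_le]
    exact hp i
  · intro p _ q _ h
    have h1 := congrArg Prod.fst h
    have h2 := congrArg Prod.snd h
    ext i
    · exact e.injective (congrFun h1 i)
    · exact e.injective (congrFun h2 i)
  · intro q hq
    simp only [mem_filter, mem_univ, true_and] at hq
    refine ⟨(fun i => e.symm (q.1 i), fun i => e.symm (q.2 i)), ?_, ?_⟩
    · simp only [mem_filter, mem_univ, true_and]
      intro i
      simp only [e.symm.le_iff_le]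
      exact hq i
    · simp

lemma crc_fin (s : ℕ) : crc (Fin s) = FL s := by
  classical
  rw [FL_trace, ← closed_walk (KM s) 12]
  unfold crc
  rw [Finset.card_filter, Fintype.sum_prod_type]
  show (∑ v : Fin 13 → Fin s, ∑ e : Fin 13 → Fin s, if Cr (β := Fin s) (v, e) then 1 else 0) = _
  refine Finset.sum_congr rfl ?_
  intro v _
  have h1 : ∀ i : Fin 13, KM s (v i) (v (i + 1)) =
      ∑ e : Fin s, if v i ≤ e ∧ v (i + 1) ≤ e then 1 else 0 := by
    intro i
    unfold KM Kf
    rw [Finset.sum_range (fun e => if (v i : ℕ) ≤ e ∧ (v (i + 1) : ℕ) ≤ e then 1 else 0)]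
    rfl
  have h2 : ∏ i : Fin 13, KM s (v i) (v (i + 1)) =
      ∏ i : Fin 13, ∑ e : Fin s, if v i ≤ e ∧ v (i + 1) ≤ e then 1 else 0 :=
    Finset.prod_congr rfl (fun i _ => h1 i)
  rw [h2, Finset.prod_univ_sum, Fintype.piFinset_univ]
  refine Finset.sum_congr rfl ?_
  intro e _
  rw [Finset.prod_ite_zero]
  simp only [Finset.prod_const_one, mem_univ, true_imp_iff]
  exact if_congr Iff.rfl rfl rfl

lemma crc_Icc (m : ℕ) (u w : Fin m) :
    crc (Set.Icc u w) = FL ((w : ℕ) + 1 - u) := by
  have h : Fintype.card (Set.Icc u w) = (w : ℕ) + 1 - u := by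
    rw [Fintype.card_ofFinset, Fin.card_Icc]
  rw [← crc_fin, crc_iso (Fintype.orderIsoFinOfCardEq _ h)]

/-! ### The poset of faces -/

/-- encoding of faces -/
def faceEquiv (n : ℕ) : PolygonFace n ≃ (Unit ⊕ Unit) ⊕ (ZMod n ⊕ ZMod n) where
  toFun
    | .empty => Sum.inl (Sum.inl ())
    | .whole => Sum.inl (Sum.inr ())
    | .vertex i => Sum.inr (Sum.inl i)
    | .edge i => Sum.inr (Sum.inr i)
  invFun
    | Sum.inl (Sum.inl _) => .empty
    | Sum.inl (Sum.inr _) => .whole
    | Sum.inr (Sum.inl i) => .vertex i
    | Sum.inr (Sum.inr i) => .edge i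
  left_inv := by intro a; cases a <;> rfl
  right_inv := by rintro ((a | a) | (a | a)) <;> rfl

instance : Fintype (PolygonFace 13) := Fintype.ofEquiv _ (faceEquiv 13).symm

lemma card_face : Fintype.card (PolygonFace 13) = 28 := by
  rw [Fintype.card_congr (faceEquiv 13)]
  simp only [Fintype.card_sum, ZMod.card, Fintype.card_unit]

/-- maps on faces as quadruples -/
def mapEquiv (γ : Type) : (PolygonFace 13 → γ) ≃ (γ × γ) × ((ZMod 13 → γ) × (ZMod 13 → γ)) where
  toFun f := ((f .empty, f .whole), (fun i => f (.vertex i), fun i => f (.edge i)))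
  invFun q := fun a => match a with
    | .empty => q.1.1
    | .whole => q.1.2
    | .vertex i => q.2.1 i
    | .edge i => q.2.2 i
  left_inv := by intro f; funext a; cases a <;> rfl
  right_inv := by intro q; rfl

lemma succ_ne (i : ZMod 13) : i + 1 ≠ i := by
  intro h
  have : (1 : ZMod 13) = 0 := by
    have := congrArg (fun x => x - i) h
    simpa using this
  exact absurd this (by decide)

lemma mono_iff {γ : Type} [PartialOrder γ] (f : PolygonFace 13 → γ) :
    (∀ a b, a ≤ b → f a ≤ f b) ↔
    ((∀ i, f .empty ≤ f (.vertex i)) ∧ (∀ i, f (.edge i) ≤ f .whole) ∧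
      ∀ i, f (.vertex i) ≤ f (.edge i) ∧ f (.vertex (i + 1)) ≤ f (.edge i)) := by
  constructor
  · intro h
    refine ⟨fun i => h _ _ ?_, fun i => h _ _ ?_, fun i => ⟨h _ _ ?_, h _ _ ?_⟩⟩
    · exact Set.empty_subset _
    · exact Set.subset_univ _
    · intro x hx; exact Or.inl hx
    · intro x hx; exact Or.inr hx
  · rintro ⟨h1, h2, h3⟩ a b hab
    have h4 : f .empty ≤ f .whole := (h1 0).trans ((h3 0).1.trans (h2 0))
    have hab' : a.verts ⊆ b.verts := hab
    cases a with
    | empty =>
      cases b with
      | empty => exact le_refl _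
      | whole => exact h4
      | vertex i => exact h1 i
      | edge i => exact (h1 i).trans (h3 i).1
    | whole =>
      cases b with
      | empty => exact absurd (hab' (Set.mem_univ (0 : ZMod 13))) (by simp [PolygonFace.verts])
      | whole => exact le_refl _
      | vertex i =>
        have : i + 1 ∈ ({i} : Set (ZMod 13)) := hab' (Set.mem_univ _)
        exact absurd (Set.mem_singleton_iff.1 this) (succ_ne i)
      | edge i =>
        exfalso
        have h5 : i + 1 + 1 ∈ ({i, i + 1} : Set (ZMod 13)) := hab' (Set.mem_univ _)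
        rcases h5 with h5 | h5
        · have : (2 : ZMod 13) = 0 := by
            have := congrArg (fun x => x - i) h5
            simp only [sub_self] at this
            rw [← this]; ring
          exact absurd this (by decide)
        · exact succ_ne (i + 1) h5
    | vertex i =>
      have hi : i ∈ b.verts := hab' rfl
      cases b with
      | empty => exact absurd hi (by simp [PolygonFace.verts])
      | whole => exact (h3 i).1.trans (h2 i)
      | vertex j =>
        have : i = j := hi
        rw [this]
      | edge j =>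
        rcases hi with hi | hi
        · rw [hi]; exact (h3 j).1
        · rw [Set.mem_singleton_iff.1 hi]; exact (h3 j).2
    | edge i =>
      have hi : i ∈ b.verts := hab' (Or.inl rfl)
      have hi1 : i + 1 ∈ b.verts := hab' (Or.inr rfl)
      cases b with
      | empty => exact absurd hi (by simp [PolygonFace.verts])
      | whole => exact h2 i
      | vertex j =>
        have e1 : i = j := hi
        have e2 : i + 1 = j := hi1
        rw [← e1] at e2
        exact absurd e2 (succ_ne i)
      | edge j =>
        rcases hi with hi | hi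
        · rw [hi]
        · exfalso
          have e1 : i = j + 1 := hi
          rw [e1] at hi1
          rcases hi1 with h5 | h5
          · have : (2 : ZMod 13) = 0 := by
              have := congrArg (fun x => x - j) h5
              simp only [sub_self] at this
              rw [← this]; ring
            exact absurd this (by decide)
          · exact succ_ne (j + 1) h5

lemma cnt_face (m : ℕ) : cnt (PolygonFace 13) (fun a b => a ≤ b) m =
    ∑ u : Fin m, ∑ w : Fin m, FL ((w : ℕ) + 1 - u) := by
  classical
  unfold cnt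
  rw [Finset.card_filter, ← (mapEquiv (Fin m)).symm.sum_comp, Fintype.sum_prod_type,
    Fintype.sum_prod_type]
  refine Finset.sum_congr rfl ?_
  intro u _
  refine Finset.sum_congr rfl ?_
  intro w _
  rw [← crc_Icc, ← Finset.card_filter]
  unfold crc
  symm
  refine Finset.card_bij (fun p _ => ((fun i => (p.1 i : Fin m)), (fun i => (p.2 i : Fin m)))) ?_ ?_ ?_
  · intro p hp
    simp only [mem_filter, mem_univ, true_and] at hp ⊢
    rw [mono_iff]
    refine ⟨fun i => (p.1 i).2.1, fun i => (p.2 i).2.2, fun i => ⟨(hp i).1, (hp i).2⟩⟩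
  · intro p _ q _ h
    have h1 := congrArg Prod.fst h
    have h2 := congrArg Prod.snd h
    refine Prod.ext (funext fun i => Subtype.ext (congrFun h1 i))
      (funext fun i => Subtype.ext (congrFun h2 i))
  · intro q hq
    simp only [mem_filter, mem_univ, true_and] at hq
    rw [mono_iff] at hq
    obtain ⟨h1, h2, h3⟩ := hq
    have h1' : ∀ i, u ≤ q.1 i := h1
    have h2' : ∀ i, q.2 i ≤ w := h2
    have h3' : ∀ i, q.1 i ≤ q.2 i ∧ q.1 (i + 1) ≤ q.2 i := h3
    refine ⟨((fun i => ⟨q.1 i, h1' i, (h3' i).1.trans (h2' i)⟩),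
      (fun i => ⟨q.2 i, (h1' i).trans (h3' i).1, h2' i⟩)), ?_, ?_⟩
    · simp only [mem_filter, mem_univ, true_and]
      intro i
      exact h3' i
    · rfl

/-! ### The dilates of the order polytope -/

lemma mem_smul_iff (α : Type) [LE α] (t : ℕ) (z : α → ℤ) :
    (fun a => (z a : ℝ)) ∈ (t : ℝ) • orderPolytope α ↔
      ((∀ a, 0 ≤ z a ∧ z a ≤ t) ∧ ∀ a b, a ≤ b → z a ≤ z b) := by
  have ht : (0 : ℝ) ≤ t := Nat.cast_nonneg t
  constructor
  · rintro ⟨y, hy, he⟩
    have hz : ∀ a, (z a : ℝ) = t * y a := fun a => (congrFun he a).symm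
    refine ⟨fun a => ⟨?_, ?_⟩, fun a b hab => ?_⟩
    · have : (0 : ℝ) ≤ z a := by rw [hz]; exact mul_nonneg ht (hy.1 a).1
      exact_mod_cast this
    · have : (z a : ℝ) ≤ t := by
        rw [hz]; exact mul_le_of_le_one_right ht (hy.1 a).2
      exact_mod_cast this
    · have : (z a : ℝ) ≤ z b := by
        rw [hz, hz]; exact mul_le_mul_of_nonneg_left (hy.2 a b hab) ht
      exact_mod_cast this
  · rintro ⟨h1, h2⟩
    rcases Nat.eq_zero_or_pos t with h0 | h0
    · subst h0
      refine ⟨0, ⟨fun a => ⟨le_refl _, zero_le_one⟩, fun a b _ => le_refl _⟩, ?_⟩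
      funext a
      have h3 : z a = 0 := by
        have := h1 a
        push_cast at this
        omega
      simp [h3]
    · have h0' : (0 : ℝ) < t := by exact_mod_cast h0
      refine ⟨fun a => (z a : ℝ) / t, ⟨fun a => ⟨?_, ?_⟩, fun a b hab => ?_⟩, ?_⟩
      · have : (0 : ℝ) ≤ z a := by exact_mod_cast (h1 a).1
        positivity
      · rw [div_le_one h0']
        exact_mod_cast (h1 a).2
      · have : (z a : ℝ) ≤ z b := by exact_mod_cast h2 a b hab
        exact div_le_div_of_nonneg_right this ht
      · funext a
        show (t : ℝ) * ((z a : ℝ) / t) = z a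
        field_simp

lemma ncard_eq_cnt (α : Type) [Fintype α] [LE α] (t : ℕ) :
    {z : α → ℤ | (fun a => (z a : ℝ)) ∈ (t : ℝ) • orderPolytope α}.ncard =
      cnt α (fun a b => a ≤ b) (t + 1) := by
  classical
  unfold cnt
  have himg : {z : α → ℤ | (fun a => (z a : ℝ)) ∈ (t : ℝ) • orderPolytope α} =
      (fun (f : α → Fin (t + 1)) (a : α) => ((f a : ℕ) : ℤ)) ''
        ((univ.filter (fun f : α → Fin (t + 1) => ∀ a b, a ≤ b → f a ≤ f b) :
          Finset (α → Fin (t + 1))) : Set (α → Fin (t + 1))) := by
    ext z
    rw [Set.mem_ofPred_eq, mem_smul_iff, Set.mem_image]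
    constructor
    · rintro ⟨h1, h2⟩
      refine ⟨fun a => ⟨(z a).toNat, ?_⟩, ?_, ?_⟩
      · have := h1 a; omega
      · rw [Finset.mem_coe, mem_filter]
        refine ⟨mem_univ _, fun a b hab => ?_⟩
        rw [Fin.mk_le_mk]
        exact Int.toNat_le_toNat (h2 a b hab)
      · funext a
        exact Int.toNat_of_nonneg (h1 a).1
    · rintro ⟨f, hf, rfl⟩
      rw [Finset.mem_coe, mem_filter] at hf
      refine ⟨fun a => ⟨Int.natCast_nonneg _, ?_⟩, fun a b hab => ?_⟩
      · have := (f a).2
        show (((f a : ℕ) : ℤ)) ≤ t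
        omega
      · have := hf.2 a b hab
        show (((f a : ℕ) : ℤ)) ≤ ((f b : ℕ) : ℤ)
        exact_mod_cast this
  rw [himg, Set.InjOn.ncard_image, Set.ncard_coe_finset]
  intro f _ g _ h
  funext a
  have h1 : (((f a : ℕ) : ℤ)) = ((g a : ℕ) : ℤ) := congrFun h a
  apply Fin.ext
  exact_mod_cast h1

/-! ### The result -/

/-- values of the Ehrhart polynomial -/
def LV (t : ℕ) : ℕ := ∑ u ∈ range (t + 1), ∑ w ∈ range (t + 1), tableF.getD (w + 1 - u) 0

lemma cnt_LV (t : ℕ) (ht : t < 29) : cnt (PolygonFace 13) (fun a b => a ≤ b) (t + 1) = LV t := by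
  rw [cnt_face]
  unfold LV
  rw [Finset.sum_range]
  refine Finset.sum_congr rfl ?_
  intro u _
  rw [Finset.sum_range]
  refine Finset.sum_congr rfl ?_
  intro w _
  rw [table_check]
  have := w.2
  omega

lemma final_check : ∑ t ∈ range 29, wts.getD t 0 * (LV t : ℤ) = -679077742525 := by
  decide +kernel

lemma ehrhart_exists : ∃ p : Polynomial ℚ, IsEhrhart (orderPolytope (PolygonFace 13)) p ∧
    p.coeff 1 = -679077742525 / 80313433200 := by
  obtain ⟨p, hp1, hp2⟩ := cnt_poly (PolygonFace 13) (fun a b => a ≤ b)
  rw [card_face] at hp1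
  refine ⟨p, ?_, ?_⟩
  · intro t
    rw [ncard_eq_cnt, hp2]
  · have h := coeff_one_formula p hp1
    have h2 : ∑ t ∈ range 29, (wts.getD t 0 : ℚ) * p.eval (t : ℚ) = -679077742525 := by
      have h3 := congrArg (fun z : ℤ => (z : ℚ)) final_check
      push_cast at h3
      rw [← h3]
      refine Finset.sum_congr rfl ?_
      intro t ht
      rw [← hp2, cnt_LV t (by simpa using ht)]
    rw [h2] at h
    linarith

lemma unique_ehr {α : Type} (P : Set (α → ℝ)) (p q : Polynomial ℚ) (hp : IsEhrhart P p)
    (hq : IsEhrhart P q) : q = p := by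
  apply Polynomial.eq_of_infinite_eval_eq
  apply Set.infinite_of_injective_forall_mem (f := fun t : ℕ => (t : ℚ))
  · exact Nat.cast_injective
  · intro t
    rw [Set.mem_ofPred_eq, ← hp t, ← hq t]

/-- For the 13-gon the Ehrhart polynomial of the order polytope of the face lattice exists, is
unique, and its linear coefficient is negative. Hence it is false that for every `n ≥ 3` the order
polytope of the face lattice of the `n`-gon is Ehrhart-nonnegative. -/
theorem result :
    (∃ p : Polynomial ℚ, IsEhrhart (orderPolytope (PolygonFace 13)) p ∧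
      (∀ q : Polynomial ℚ, IsEhrhart (orderPolytope (PolygonFace 13)) q → q = p) ∧
      p.coeff 1 = -679077742525 / 80313433200) ∧
    ¬ (∀ n : ℕ, 3 ≤ n → ∀ p : Polynomial ℚ, IsEhrhart (orderPolytope (PolygonFace n)) p →
      ∀ i, 0 ≤ p.coeff i) := by
  obtain ⟨p, hp, hc⟩ := ehrhart_exists
  refine ⟨⟨p, hp, fun q hq => unique_ehr _ _ _ hp hq, hc⟩, ?_⟩
  intro h
  have h1 := h 13 (by norm_num) p hp 1
  rw [hc] at h1
  norm_num at h1

end Pool.Agent.Results.MP_a14af5_co.PolygonThirteen
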